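import Pool.Agent.Y546.SH.Chain

/-!
# Countable unions of subspaces, and degrees
-/

set_option autoImplicit false

namespace Pool.Agent.Y546.SH

open Pool.Agent.H454R3.EDeg Pool.Agent.H454R3.Mono TopologicalSpace Topology

open Pt

universe u

theorem big (p : ℕ∞) (A : ℕ → Set (Sp p)) (hA : ∀ n, NC p (A n)) (O : Set (Sp p))
    (hO : IsOpen O) (hne : O.Nonempty) :
    Cardinal.continuum ≤ Cardinal.mk ↥(O \ ⋃ n, A n) := by
  obtain ⟨w0, hw0⟩ := hne
  obtain ⟨m, hm⟩ := threshold hO hw0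
  obtain ⟨f, hf1, hf2, hf3⟩ := chain_family (o true) (o false) (by simp) A w0 m
  have hC : {r | ∃ n, f r ∈ A n}.Countable := by
    rcases hf3 with h | ⟨n, y, k, h1, x, hx, x', hx', h2, h3, h4, h5⟩
    · exact h
    · exact absurd h5 (hA n y k h1 x hx x' hx' h2 h3 h4)
  have h1 : Cardinal.mk ↥({r | ∃ n, f r ∈ A n}ᶜ) = Cardinal.continuum := by
    rw [Cardinal.mk_compl_of_infinite, Cardinal.mk_real]
    rw [Cardinal.mk_real]
    exact lt_of_le_of_lt (Set.Countable.le_aleph0 hC) Cardinal.aleph0_lt_continuum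
  rw [← h1]
  refine Cardinal.mk_le_of_injective (f := fun r => ⟨f r.1, ?_, ?_⟩) ?_
  · refine hm _ fun i hi => ?_
    have : f r.1 i = w0 i := hf2 r.1 i hi
    show Near p m (w0 i) (f r.1 i)
    rw [this]
    exact near_refl _ _ _
  · intro h
    obtain ⟨n, hn⟩ := Set.mem_iUnion.1 h
    exact r.2 ⟨n, hn⟩
  · intro r r' h
    have h2 := congrArg Subtype.val h
    exact Subtype.ext (hf1 h2)

/-! ### Continuous injections -/

theorem isS_of_inj {X Y : Type*} [TopologicalSpace X] [TopologicalSpace Y] {n : ℕ}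
    (hY : IsS n Y) (f : X → Y) (hf : Continuous f) (hi : Function.Injective f) : IsS n X := by
  intro x x' hne
  obtain ⟨U, h1, h2, h3, h4⟩ := hY (f x) (f x') (hi.ne hne)
  refine ⟨fun i => f ⁻¹' U i, fun i => (h1 i).preimage hf, h2, fun i hi' => ?_, fun h => h4 ?_⟩
  · exact (hf.closure_preimage_subset _).trans (Set.preimage_mono (h3 i hi'))
  · exact hf.closure_preimage_subset _ h

theorem isFH_of_inj {X Y : Type*} [TopologicalSpace X] [TopologicalSpace Y]
    (hY : IsFH Y) (f : X → Y) (hf : Continuous f) (hi : Function.Injective f) : IsFH X := by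
  intro x x' hne
  obtain ⟨g, h1, h2⟩ := hY (f x) (f x') (hi.ne hne)
  exact ⟨g ∘ f, h1.comp hf, h2⟩

theorem isS_mono {X : Type*} [TopologicalSpace X] {m n : ℕ} (hm : 1 ≤ m) (hmn : m ≤ n)
    (h : IsS n X) : IsS m X := by
  intro x y hne
  obtain ⟨U, h1, h2, h3, h4⟩ := h x y hne
  refine ⟨U, h1, h2, fun i hi => h3 i (by omega), fun hy => ?_⟩
  apply h4
  have key : ∀ j, m - 1 ≤ j → j ≤ n - 1 → closure (U (m - 1)) ⊆ closure (U j) := by
    intro j hj
    induction j, hj using Nat.le_induction with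
    | base => intro _; exact le_rfl
    | succ j hj ih =>
      intro hj'
      exact ((ih (by omega)).trans (h3 j (by omega))).trans subset_closure
  exact key (n - 1) (by omega) le_rfl hy

theorem isS_of_isFH {X : Type*} [TopologicalSpace X] (h : IsFH X) (n : ℕ) : IsS n X := by
  intro x y hne
  obtain ⟨f, hf, hfne⟩ := h x y hne
  obtain ⟨δ, hδ⟩ : ∃ δ, δ = |f x - f y| := ⟨_, rfl⟩
  have hδ0 : 0 < δ := by rw [hδ]; exact abs_pos.2 (sub_ne_zero.2 hfne)
  have hn : (0 : ℝ) < n + 2 := by positivity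
  have hopen : ∀ e : ℝ, IsOpen {z : X | |f z - f x| < e} := fun e =>
    isOpen_lt ((hf.sub continuous_const).abs) continuous_const
  have hcl : ∀ e : ℝ, closure {z : X | |f z - f x| < e} ⊆ {z : X | |f z - f x| ≤ e} := fun e =>
    closure_minimal (Set.ofPred_subset_ofPred.2 fun z hz => le_of_lt hz)
      (isClosed_le ((hf.sub continuous_const).abs) continuous_const)
  refine ⟨fun i => {z | |f z - f x| < δ * ((i + 1 : ℝ) / (n + 2))}, fun i => hopen _, ?_, ?_, ?_⟩
  · show |f x - f x| < δ * (((0 : ℕ) + 1 : ℝ) / (n + 2))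
    rw [sub_self, abs_zero]
    positivity
  · intro i _ z hz
    have h1 : |f z - f x| ≤ δ * ((i + 1 : ℝ) / (n + 2)) := hcl _ hz
    show |f z - f x| < δ * ((((i + 1 : ℕ) : ℝ) + 1) / (n + 2))
    refine lt_of_le_of_lt h1 (mul_lt_mul_of_pos_left ?_ hδ0)
    apply div_lt_div_of_pos_right _ hn
    push_cast
    linarith
  · intro hy
    have h1 : |f y - f x| ≤ δ * ((((n - 1 : ℕ) : ℝ) + 1) / (n + 2)) := hcl _ hy
    rw [abs_sub_comm, ← hδ] at h1
    have h2 : (((n - 1 : ℕ) : ℝ) + 1) / (n + 2) < 1 := by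
      rw [div_lt_one hn]
      have h3 : ((n - 1 : ℕ) : ℝ) ≤ n := by exact_mod_cast Nat.sub_le n 1
      linarith
    nlinarith

theorem isFH_of_submetrizable {Y : Type*} [t : TopologicalSpace Y]
    (h : ∃ t' : TopologicalSpace Y, t ≤ t' ∧ @MetrizableSpace Y t') : IsFH Y := by
  obtain ⟨t', ht, hm⟩ := h
  intro x y hne
  obtain ⟨d, hd, hdne⟩ : ∃ f : Y → ℝ, @Continuous Y ℝ t' _ f ∧ f x ≠ f y := by
    let _ := t'
    have _ := hm
    let _ : MetricSpace Y := TopologicalSpace.metrizableSpaceMetric Y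
    refine ⟨fun z => dist z x, ?_, ?_⟩
    · fun_prop
    · show dist x x ≠ dist y x
      rw [dist_self]
      exact (dist_pos.2 hne.symm).ne
  exact ⟨d, continuous_le_dom ht hd, hdne⟩

theorem isS_two_iff {X : Type*} [TopologicalSpace X] : IsS 2 X ↔ T25Space X := by
  constructor
  · intro h
    constructor
    intro x y hne
    obtain ⟨U, h1, h2, h3, h4⟩ := h x y hne
    refine ((𝓝 x).basis_sets.lift'_closure.disjoint_iff
      (𝓝 y).basis_sets.lift'_closure).2 ⟨U 0, (h1 0).mem_nhds h2, (closure (U 1))ᶜ,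
      isClosed_closure.isOpen_compl.mem_nhds h4, ?_⟩
    rw [Set.disjoint_left]
    intro z hz hz'
    have h5 : z ∈ U 1 := h3 0 (by omega) hz
    have h6 : closure ((closure (U 1))ᶜ) ⊆ (U 1)ᶜ :=
      closure_minimal (Set.compl_subset_compl.2 subset_closure) (h1 1).isClosed_compl
    exact h6 hz' h5
  · intro h x y hne
    have h1 := T25Space.t2_5 hne
    obtain ⟨U, hU, V, hV, hUV⟩ := ((𝓝 x).basis_sets.lift'_closure.disjoint_iff
      (𝓝 y).basis_sets.lift'_closure).1 h1
    have hU' : x ∈ interior U := mem_interior_iff_mem_nhds.2 hU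
    have hV' : y ∈ interior V := mem_interior_iff_mem_nhds.2 hV
    refine ⟨fun i => if i = 0 then interior U else (closure V)ᶜ, fun i => ?_, ?_, ?_, ?_⟩
    · dsimp only
      split_ifs
      · exact isOpen_interior
      · exact isClosed_closure.isOpen_compl
    · exact hU'
    · intro i hi
      have h0 : i = 0 := by omega
      subst h0
      show closure (interior U) ⊆ (closure V)ᶜ
      intro z hz hz'
      exact Set.disjoint_left.1 hUV (closure_mono interior_subset hz) hz'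
    · intro hy
      have h2 : closure ((closure V)ᶜ) ⊆ (interior V)ᶜ :=
        closure_minimal (Set.compl_subset_compl.2 (interior_subset.trans subset_closure))
          isOpen_interior.isClosed_compl
      exact h2 hy hV'

/-! ### Degrees -/

/-- `A` is obtained from `B` by a member of the family `F` of enumeration operators. -/
def RedBy (F : Set (Set (ℕ × ℕ))) (A B : Set ℕ) : Prop := ∃ Φ ∈ F, A = app Φ B

theorem deg_big (p : ℕ∞) (hp : 1 ≤ p) (Y : Type u) [TopologicalSpace Y]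
    (hNC : ∀ (A : Set (Sp p)) (f : A → Y), Continuous f → Function.Injective f → NC p A)
    (U : ℕ → Set Y) (hU : IsTopologicalBasis (Set.range U)) (F : Set (Set (ℕ × ℕ)))
    (hF : F.Countable) (O : Set (Sp p)) (hO : IsOpen O) (hne : O.Nonempty) :
    Cardinal.continuum ≤ Cardinal.mk ↥{x ∈ O | ∀ y : Y, ¬ (RedBy F (Nbase U y) (Nbase (base p) x) ∧
      RedBy F (Nbase (base p) x) (Nbase U y))} := by
  classical
  obtain ⟨Φ, hΦ⟩ : ∃ Φ : ℕ → Set (ℕ × ℕ), F ⊆ Set.range Φ := by
    rcases F.eq_empty_or_nonempty with h | h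
    · exact ⟨fun _ => ∅, by rw [h]; exact Set.empty_subset _⟩
    · obtain ⟨Φ, hΦ⟩ := hF.exists_eq_range h
      exact ⟨Φ, hΦ.le⟩
  obtain ⟨A, hAdef⟩ : ∃ A : ℕ → Set (Sp p), A = fun n => {w | ∃ y : Y,
    Nbase U y = app (Φ n.unpair.1) (Nbase (base p) w) ∧
      Nbase (base p) w = app (Φ n.unpair.2) (Nbase U y)} := ⟨_, rfl⟩
  have hT0 : ∀ w w' : Sp p, Nbase (base p) w = Nbase (base p) w' → w = w' := by
    intro w w' h
    by_contra hne
    obtain ⟨V, h1, h2, h3, h4⟩ := isS_sp p 1 le_rfl (by exact_mod_cast hp) w w' hne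
    obtain ⟨_, ⟨u, rfl⟩, h5, h6⟩ :=
      (isTopologicalBasis p).exists_subset_of_mem_open h2 (h1 0)
    have h7 : u ∈ Nbase (base p) w' := by rw [← h]; exact h5
    exact h4 (subset_closure (h6 h7))
  have hDo : ∀ u, IsOpen {w : Sp p | D u ⊆ Nbase (base p) w} := by
    intro u
    have h1 : {w : Sp p | D u ⊆ Nbase (base p) w} = ⋂ q ∈ D u, base p q := by
      ext w
      simp only [Set.mem_ofPred_eq, Set.mem_iInter]
      rfl
    rw [h1]
    have hfin : (D u).Finite := (Set.finite_Iio u).subset fun i hi => D_bound hi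
    exact hfin.isOpen_biInter fun q _ => (isTopologicalBasis p).isOpen ⟨q, rfl⟩
  have hA : ∀ n, NC p (A n) := by
    intro n
    have hex : ∀ w : A n, ∃ y : Y, Nbase U y = app (Φ n.unpair.1) (Nbase (base p) w.1) ∧
        Nbase (base p) w.1 = app (Φ n.unpair.2) (Nbase U y) := by
      rintro ⟨w, hw⟩
      rw [hAdef] at hw
      exact hw
    choose f hf1 hf2 using hex
    refine hNC (A n) f ?_ ?_
    · rw [hU.continuous_iff]
      rintro _ ⟨a, rfl⟩
      have h1 : f ⁻¹' U a = ⋃ u ∈ {u | (a, u) ∈ Φ n.unpair.1},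
          (Subtype.val ⁻¹' {w : Sp p | D u ⊆ Nbase (base p) w} : Set (A n)) := by
        ext w
        have h2 : w ∈ f ⁻¹' U a ↔ a ∈ Nbase U (f w) := Iff.rfl
        rw [h2, hf1 w]
        simp only [Set.mem_iUnion, Set.mem_preimage, Set.mem_ofPred_eq, app, exists_prop]
      rw [h1]
      exact isOpen_biUnion fun u _ => (hDo u).preimage continuous_subtype_val
    · intro w w' h
      apply Subtype.ext
      apply hT0
      rw [hf2 w, hf2 w', h]
  have h1 := big p A hA O hO hne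
  refine h1.trans (Cardinal.mk_le_mk_of_subset ?_)
  rintro x ⟨hxO, hxA⟩
  refine ⟨hxO, fun y hy => hxA ?_⟩
  obtain ⟨⟨Φ1, h2, h3⟩, Φ2, h4, h5⟩ := hy
  obtain ⟨i, rfl⟩ := hΦ h2
  obtain ⟨j, rfl⟩ := hΦ h4
  rw [Set.mem_iUnion]
  refine ⟨Nat.pair i j, ?_⟩
  rw [hAdef]
  refine ⟨y, ?_, ?_⟩
  · rw [Nat.unpair_pair]; exact h3
  · rw [Nat.unpair_pair]; exact h5

theorem ered_iff_redBy {A B : Set ℕ} : ERed A B ↔ RedBy (Set.range Op) A B := by
  rw [ered_iff]
  constructor
  · rintro ⟨e, h⟩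
    exact ⟨_, ⟨e, rfl⟩, h⟩
  · rintro ⟨_, ⟨e, rfl⟩, h⟩
    exact ⟨e, h⟩

end Pool.Agent.Y546.SH
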