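import Pool.Agent.Y546.SH.Sp

/-!
# The chain argument
-/

set_option autoImplicit false

namespace Pool.Agent.Y546.SH

open Pool.Agent.H454R3.EDeg Pool.Agent.H454R3.Mono TopologicalSpace Topology

open Pt

theorem chain_core {p : ℕ∞} {A : Set (Sp p)} {y : ℕ → Pt} {k : ℕ} (hd : DenseIn A y k)
    {x x' : ℕ → Pt} (hx : x ∈ A) (hx' : x' ∈ A) (hk : Cyl y k x) (hk' : Cyl y k x')
    (hrel : ∀ i, x i = x' i ∨ (x i = o true ∧ x' i = o false))
    (V0 W : Set A) (hV0 : IsOpen V0) (hW : IsOpen W) (hxV : (⟨x, hx⟩ : A) ∈ V0)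
    (hxW : (⟨x', hx'⟩ : A) ∈ W) :
    ∃ m1 : ℕ, ∀ L : ℕ, 1 ≤ L → (∀ e < m1, (e : ℕ∞) ≤ p → e ≤ L) → ∀ V : ℕ → Set A,
      (∀ i, IsOpen (V i)) → V 0 = V0 → (∀ i < L, closure (V i) ⊆ V (i + 1)) →
      (V L ∩ W).Nonempty := by
  classical
  obtain ⟨m1, hm1⟩ := threshold_sub hV0 hxV
  obtain ⟨m0, hm0⟩ := threshold_sub hW hxW
  refine ⟨m1, ?_⟩
  intro L hL hLm V hVo hV hcl
  obtain ⟨m, hm⟩ : ∃ m, m = k + m1 + m0 := ⟨_, rfl⟩
  have hxk : ∀ i < k, x i = x' i := fun i hi => (hk i hi).trans (hk' i hi).symm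
  have claim : ∀ c l, l + c + 1 = L → ∀ w : A, (∀ i < m, x i = x' i → w.1 i = x i) →
      (∀ i < m, x i ≠ x' i → ∃ (s : ℕ) (rs : List ℕ), m ≤ s ∧ rs.length = l ∧
        (∀ r ∈ rs, m ≤ r) ∧ w.1 i = v s rs none) → w ∈ closure (V c) := by
    intro c
    induction c with
    | zero =>
      intro l hl w h1 h2
      have h3 : ∀ i, ∃ (s : ℕ) (rs : List ℕ), i < m → x i ≠ x' i → m ≤ s ∧ rs.length = l ∧
          (∀ r ∈ rs, m ≤ r) ∧ w.1 i = v s rs none := by
        intro i
        by_cases h4 : i < m ∧ x i ≠ x' i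
        · obtain ⟨s, rs, h5⟩ := h2 i h4.1 h4.2
          exact ⟨s, rs, fun _ _ => h5⟩
        · exact ⟨0, [], fun a b => absurd ⟨a, b⟩ h4⟩
      choose s R hR using h3
      apply closure_sub
      intro j
      obtain ⟨J, hJ⟩ : ∃ J, J = j + m := ⟨_, rfl⟩
      obtain ⟨u, hu, huj⟩ := hd (fun i => if i < m ∧ x i ≠ x' i then
          v (s i) (R i ++ [J]) (some J) else w.1 i) (by
        intro i hi
        have h4 : ¬ (i < m ∧ x i ≠ x' i) := fun h => h.2 (hxk i hi)
        simp only [h4, if_false]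
        rw [h1 i (by omega) (hxk i hi)]
        exact hk i hi) J
      refine ⟨J, by omega, ⟨u, hu⟩, ?_, ?_⟩
      · rw [hV]
        refine hm1 m1 le_rfl ⟨u, hu⟩ ?_
        intro i hi
        show Near p m1 (x i) (u i)
        rw [huj i (by omega)]
        dsimp only
        by_cases h4 : i < m ∧ x i ≠ x' i
        · rw [if_pos h4]
          obtain ⟨h5, h6, h7, -⟩ := hR i h4.1 h4.2
          rcases hrel i with h8 | ⟨h8, -⟩
          · exact absurd h8 h4.2
          · rw [h8]
            refine near_bot1 (by omega) ?_ (by omega) ?_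
            · intro r hr
              rcases List.mem_append.1 hr with h9 | h9
              · have := h7 r h9
                omega
              · simp only [List.mem_singleton] at h9
                omega
            · intro e he hep
              have h9 := hLm e he hep
              rw [List.length_append, h6]
              simp only [List.length_singleton]
              omega
        · rw [if_neg h4]
          have h5 : x i = x' i := by
            by_contra h6
            exact h4 ⟨by omega, h6⟩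
          rw [h1 i (by omega) h5]
          exact near_refl _ _ _
      · intro i hi
        show Near p J (w.1 i) (u i)
        rw [huj i hi]
        dsimp only
        by_cases h4 : i < m ∧ x i ≠ x' i
        · rw [if_pos h4, (hR i h4.1 h4.2).2.2.2]
          exact near_next p le_rfl le_rfl
        · rw [if_neg h4]
          exact near_refl _ _ _
    | succ c ih =>
      intro l hl w h1 h2
      have h3 : ∀ i, ∃ (s : ℕ) (rs : List ℕ), i < m → x i ≠ x' i → m ≤ s ∧ rs.length = l ∧
          (∀ r ∈ rs, m ≤ r) ∧ w.1 i = v s rs none := by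
        intro i
        by_cases h4 : i < m ∧ x i ≠ x' i
        · obtain ⟨s, rs, h5⟩ := h2 i h4.1 h4.2
          exact ⟨s, rs, fun _ _ => h5⟩
        · exact ⟨0, [], fun a b => absurd ⟨a, b⟩ h4⟩
      choose s R hR using h3
      apply closure_sub
      intro j
      obtain ⟨J, hJ⟩ : ∃ J, J = j + m := ⟨_, rfl⟩
      obtain ⟨w', hw', hw'j⟩ := hd (fun i => if i < m ∧ x i ≠ x' i then
          v (s i) (R i ++ [J]) none else w.1 i) (by
        intro i hi
        have h4 : ¬ (i < m ∧ x i ≠ x' i) := fun h => h.2 (hxk i hi)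
        simp only [h4, if_false]
        rw [h1 i (by omega) (hxk i hi)]
        exact hk i hi) J
      have hw'1 : ∀ i < J, (i < m ∧ x i ≠ x' i) → w' i = v (s i) (R i ++ [J]) none := by
        intro i hi h4
        rw [hw'j i hi]
        exact if_pos h4
      have hw'2 : ∀ i < J, ¬ (i < m ∧ x i ≠ x' i) → w' i = w.1 i := by
        intro i hi h4
        rw [hw'j i hi]
        exact if_neg h4
      have hV' : (⟨w', hw'⟩ : A) ∈ V (c + 1) := by
        apply hcl c (by omega)
        refine ih (l + 1) (by omega) ⟨w', hw'⟩ ?_ ?_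
        · intro i hi h4
          show w' i = x i
          rw [hw'2 i (by omega) (fun h => h.2 h4)]
          exact h1 i hi h4
        · intro i hi h4
          obtain ⟨h5, h6, h7, -⟩ := hR i hi h4
          refine ⟨s i, R i ++ [J], h5, by simp [h6], ?_, hw'1 i (by omega) ⟨hi, h4⟩⟩
          intro r hr
          rcases List.mem_append.1 hr with h9 | h9
          · exact h7 r h9
          · simp only [List.mem_singleton] at h9
            omega
      obtain ⟨t0, ht0⟩ := threshold_sub (hVo (c + 1)) hV'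
      obtain ⟨T, hT⟩ : ∃ T, T = t0 + J := ⟨_, rfl⟩
      obtain ⟨u, hu, huT⟩ := hd (fun i => if i < m ∧ x i ≠ x' i then
          v (s i) (R i ++ [J]) (some T) else w' i) (by
        intro i hi
        have h4 : ¬ (i < m ∧ x i ≠ x' i) := fun h => h.2 (hxk i hi)
        simp only [h4, if_false]
        rw [hw'2 i (by omega) h4, h1 i (by omega) (hxk i hi)]
        exact hk i hi) T
      refine ⟨J, by omega, ⟨u, hu⟩, ?_, ?_⟩
      · refine ht0 T (by omega) ⟨u, hu⟩ ?_
        intro i hi
        show Near p T (w' i) (u i)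
        rw [huT i hi]
        dsimp only
        by_cases h4 : i < m ∧ x i ≠ x' i
        · rw [if_pos h4, hw'1 i (by omega) h4]
          exact near_even p le_rfl
        · rw [if_neg h4]
          exact near_refl _ _ _
      · intro i hi
        show Near p J (w.1 i) (u i)
        rw [huT i (by omega)]
        dsimp only
        by_cases h4 : i < m ∧ x i ≠ x' i
        · rw [if_pos h4, (hR i h4.1 h4.2).2.2.2]
          exact near_next p le_rfl (by omega)
        · rw [if_neg h4, hw'2 i hi h4]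
          exact near_refl _ _ _
  -- the last step
  obtain ⟨z, hz, hzm⟩ := hd (fun i => if i < m ∧ x i ≠ x' i then v m [] none else x i) (by
    intro i hi
    have h4 : ¬ (i < m ∧ x i ≠ x' i) := fun h => h.2 (hxk i hi)
    simp only [h4, if_false]
    exact hk i hi) m
  have hz1 : ∀ i < m, x i = x' i → z i = x i := by
    intro i hi h
    rw [hzm i hi]
    exact if_neg fun h' => h'.2 h
  have hz2 : ∀ i < m, x i ≠ x' i → z i = v m [] none := by
    intro i hi h
    rw [hzm i hi]
    exact if_pos ⟨hi, h⟩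
  have hzV : (⟨z, hz⟩ : A) ∈ V L := by
    have h1 : (⟨z, hz⟩ : A) ∈ closure (V (L - 1)) := by
      refine claim (L - 1) 0 (by omega) ⟨z, hz⟩ hz1 ?_
      intro i hi h
      exact ⟨m, [], le_rfl, rfl, by simp, hz2 i hi h⟩
    have h2 := hcl (L - 1) (by omega) h1
    rwa [show L - 1 + 1 = L by omega] at h2
  obtain ⟨t0, ht0⟩ := threshold_sub (hVo L) hzV
  obtain ⟨T, hT⟩ : ∃ T, T = t0 + m := ⟨_, rfl⟩
  obtain ⟨u, hu, huT⟩ := hd (fun i => if i < m ∧ x i ≠ x' i then v m [] (some T) else z i) (by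
    intro i hi
    have h4 : ¬ (i < m ∧ x i ≠ x' i) := fun h => h.2 (hxk i hi)
    simp only [h4, if_false]
    rw [hz1 i (by omega) (hxk i hi)]
    exact hk i hi) T
  refine ⟨⟨u, hu⟩, ?_, ?_⟩
  · refine ht0 T (by omega) ⟨u, hu⟩ ?_
    intro i hi
    show Near p T (z i) (u i)
    rw [huT i hi]
    dsimp only
    by_cases h4 : i < m ∧ x i ≠ x' i
    · rw [if_pos h4, hz2 i h4.1 h4.2]
      exact near_even p le_rfl
    · rw [if_neg h4]
      exact near_refl _ _ _
  · refine hm0 m0 le_rfl ⟨u, hu⟩ ?_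
    intro i hi
    show Near p m0 (x' i) (u i)
    rw [huT i (by omega)]
    dsimp only
    by_cases h4 : i < m ∧ x i ≠ x' i
    · rw [if_pos h4]
      rcases hrel i with h8 | ⟨-, h8⟩
      · exact absurd h8 h4.2
      · rw [h8]
        exact near_bot0 p (by omega) (by omega)
    · rw [if_neg h4]
      have h5 : x i = x' i := by
        by_contra h6
        exact h4 ⟨by omega, h6⟩
      rw [hz1 i (by omega) h5, h5]
      exact near_refl _ _ _

/-- There is no configuration as in the lemma on chains of points. -/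
def NC (p : ℕ∞) (A : Set (Sp p)) : Prop :=
  ∀ (y : ℕ → Pt) (k : ℕ), DenseIn A y k → ∀ x ∈ A, ∀ x' ∈ A, Cyl y k x → Cyl y k x' → x ≠ x' →
    ¬ ∀ i, x i = x' i ∨ (x i = o true ∧ x' i = o false)

theorem nc_isS {p : ℕ} (hp : 1 ≤ p) {A : Set (Sp p)} (hA : IsS (p + 1) A) : NC p A := by
  intro y k hd x hx x' hx' hk hk' hne hrel
  obtain ⟨V, hV1, hV2, hV3, hV4⟩ := hA ⟨x, hx⟩ ⟨x', hx'⟩ (fun h => hne (congrArg Subtype.val h))
  obtain ⟨m1, hm1⟩ := chain_core hd hx hx' hk hk' hrel (V 0) (closure (V p))ᶜ (hV1 0)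
    isClosed_closure.isOpen_compl hV2 hV4
  obtain ⟨z, hz1, hz2⟩ := hm1 p hp (fun e _ he => by exact_mod_cast he) V hV1 rfl
    (fun i hi => hV3 i (by omega))
  exact hz2 (subset_closure hz1)

/-- Functionally Hausdorff spaces. -/
def IsFH (X : Type*) [TopologicalSpace X] : Prop :=
  ∀ x y : X, x ≠ y → ∃ f : X → ℝ, Continuous f ∧ f x ≠ f y

theorem nc_isFH {A : Set (Sp ⊤)} (hA : IsFH A) : NC ⊤ A := by
  intro y k hd x hx x' hx' hk hk' hne hrel
  obtain ⟨G, hG, hGne⟩ := hA ⟨x, hx⟩ ⟨x', hx'⟩ (fun h => hne (congrArg Subtype.val h))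
  obtain ⟨a, ha⟩ : ∃ a, a = G ⟨x, hx⟩ := ⟨_, rfl⟩
  obtain ⟨b, hb⟩ : ∃ b, b = G ⟨x', hx'⟩ := ⟨_, rfl⟩
  rw [← ha, ← hb] at hGne
  obtain ⟨δ, hδ⟩ : ∃ δ, δ = |a - b| / 3 := ⟨_, rfl⟩
  have hδ0 : 0 < δ := by
    rw [hδ]
    have := abs_pos.2 (sub_ne_zero.2 hGne)
    linarith
  have hopen : ∀ (c e : ℝ), IsOpen {z : A | |G z - c| < e} := fun c e =>
    isOpen_lt ((hG.sub continuous_const).abs) continuous_const
  have hclosed : ∀ (c e : ℝ), IsClosed {z : A | |G z - c| ≤ e} := fun c e =>
    isClosed_le ((hG.sub continuous_const).abs) continuous_const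
  obtain ⟨m1, hm1⟩ := chain_core hd hx hx' hk hk' hrel {z | |G z - a| < δ} {z | |G z - b| < δ}
    (hopen _ _) (hopen _ _) (by
      show |G ⟨x, hx⟩ - a| < δ
      rw [← ha, sub_self, abs_zero]
      exact hδ0) (by
      show |G ⟨x', hx'⟩ - b| < δ
      rw [← hb, sub_self, abs_zero]
      exact hδ0)
  obtain ⟨L, hL⟩ : ∃ L : ℕ, L = m1 + 1 := ⟨_, rfl⟩
  have hL0 : (0 : ℝ) < L := by
    have : 0 < L := by omega
    exact_mod_cast this
  obtain ⟨z, hz1, hz2⟩ := hm1 L (by omega) (fun e he _ => by omega)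
    (fun i => {z | |G z - a| < δ * (1 + i / L)}) (fun i => hopen _ _) (by
      ext z
      simp) (by
      intro i _
      have h0 : closure {z : A | |G z - a| < δ * (1 + i / L)} ⊆
          {z : A | |G z - a| ≤ δ * (1 + i / L)} :=
        closure_minimal (Set.ofPred_subset_ofPred.2 fun z hz => le_of_lt hz) (hclosed _ _)
      intro z hz
      have h1 : |G z - a| ≤ δ * (1 + i / L) := h0 hz
      show |G z - a| < δ * (1 + ((i + 1 : ℕ) : ℝ) / L)
      refine lt_of_le_of_lt h1 ?_
      apply mul_lt_mul_of_pos_left _ hδ0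
      have h2 : (i : ℝ) / L < ((i + 1 : ℕ) : ℝ) / L := by
        apply div_lt_div_of_pos_right _ hL0
        push_cast
        linarith
      linarith)
  have h1 : |G z - a| < δ * (1 + (L : ℝ) / L) := hz1
  have h2 : |G z - b| < δ := hz2
  rw [div_self hL0.ne'] at h1
  have h3 : |a - b| ≤ |a - G z| + |G z - b| := abs_sub_le _ _ _
  have h4 : |a - G z| = |G z - a| := abs_sub_comm _ _
  have h5 : |a - b| = 3 * δ := by rw [hδ]; ring
  linarith

end Pool.Agent.Y546.SH
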