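import Pool.Agent.H454R3.Mono

/-!
# A chain of points avoiding countably many sets
-/

set_option autoImplicit false

namespace Pool.Agent.Y546.SH

open Pool.Agent.H454R3 Pool.Agent.H454R3.Mono

variable {E : Type*}

/-- The construction of `Mono.mono`, inside a given cylinder. -/
theorem family (o1 o2 : E) (X : ℕ → Set (ℕ → E)) (y0 : ℕ → E) (k0 : ℕ) :
    ∃ (κ : ℕ → ℕ) (y : ℕ → E), StrictMono κ ∧ (∀ j, k0 ≤ κ j) ∧ Cyl y0 k0 y ∧
      ∀ a j, sub o1 o2 (Set.range κ) a y ∉ Bad (X j) := by
  classical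
  have hstep : ∀ (j : ℕ) (s : St E), ∃ s' : St E, Cyl s.y s.k s'.y ∧ s.k < s'.k ∧
      s'.S = insert s.k s.S ∧ ∀ a w, Cyl (sub o1 o2 s'.S a s'.y) s'.k w → w ∉ Bad (X j) :=
    fun j s => step o1 o2 _ (bad_nowhere (X j)) s
  choose nxt hn1 hn2 hn3 hn4 using hstep
  let s0 : St E := ⟨y0, k0, ∅, by simp⟩
  let s : ℕ → St E := fun j => Nat.rec s0 (fun j s => nxt j s) j
  have hs : ∀ j, s (j + 1) = nxt j (s j) := fun j => rfl
  have hk : StrictMono fun j => (s j).k := strictMono_nat_of_lt_succ fun j => by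
    rw [hs]; exact hn2 j (s j)
  have hk0 : ∀ j, k0 ≤ (s j).k := fun j => hk.monotone (Nat.zero_le j)
  have hkj : ∀ j, j ≤ (s j).k := fun j => hk.id_le j
  have hy : ∀ j l, j ≤ l → Cyl (s j).y (s j).k (s l).y := by
    intro j l hjl
    induction l, hjl using Nat.le_induction with
    | base => exact Cyl.refl _ _
    | succ l hl ih =>
      rw [hs]
      exact ih.trans (hn1 l (s l)) (hk.monotone hl)
  let y : ℕ → E := fun i => (s (i + 1)).y i
  have hyj : ∀ j, Cyl (s j).y (s j).k y := by
    intro j i hi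
    show (s (i + 1)).y i = (s j).y i
    rcases le_total j (i + 1) with h | h
    · exact hy j (i + 1) h i hi
    · exact (hy (i + 1) j h i (by have := hkj (i + 1); omega)).symm
  obtain ⟨S, hSdef⟩ : ∃ S : Set ℕ, S = Set.range fun j => (s j).k := ⟨_, rfl⟩
  have hSj : ∀ j, ∀ i < (s j).k, (i ∈ S ↔ i ∈ (s j).S) := by
    intro j
    have h1 : (s j).S = {i | ∃ l < j, (s l).k = i} := by
      induction j with
      | zero => ext i; simp [s, s0]
      | succ j ih =>
        rw [hs, hn3, ih]
        ext i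
        simp only [Set.mem_insert_iff, Set.mem_ofPred_eq]
        constructor
        · rintro (rfl | ⟨l, hl, rfl⟩)
          · exact ⟨j, by omega, rfl⟩
          · exact ⟨l, by omega, rfl⟩
        · rintro ⟨l, hl, rfl⟩
          rcases Nat.lt_succ_iff_lt_or_eq.1 hl with h | rfl
          · exact Or.inr ⟨l, h, rfl⟩
          · exact Or.inl rfl
    intro i hi
    rw [h1, hSdef]
    constructor
    · rintro ⟨l, rfl⟩
      refine ⟨l, ?_, rfl⟩
      by_contra hc
      push Not at hc
      have := hk.monotone hc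
      simp only at this hi
      omega
    · rintro ⟨l, -, rfl⟩
      exact ⟨l, rfl⟩
  refine ⟨fun j => (s j).k, y, hk, hk0, hyj 0, fun a j => ?_⟩
  rw [← hSdef]
  refine hn4 j (s j) a _ ?_
  rw [← hs]
  intro i hi
  by_cases h : i ∈ S
  · have h5 : i ∈ (s (j + 1)).S := (hSj (j + 1) i hi).1 h
    have h6 := Mono.sub_mem o1 o2 (a := a) (y := (s (j + 1)).y) h5
    have h7 := Mono.sub_mem o1 o2 (a := a) (y := y) h
    exact h7.trans h6.symm
  · have h5 : i ∉ (s (j + 1)).S := fun h' => h ((hSj (j + 1) i hi).2 h')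
    have h6 := Mono.sub_not_mem o1 o2 (a := a) (y := (s (j + 1)).y) h5
    have h7 := Mono.sub_not_mem o1 o2 (a := a) (y := y) h
    exact h7.trans ((hyj (j + 1) i hi).trans h6.symm)

/-- **The lemma.** A chain of points, indexed by the real numbers, in a given cylinder, of which
only countably many are in the union of the sets, unless one of the sets is dense in a cylinder
which contains two different points of the set that differ only by having `o1` and `o2` at the
same coordinates. -/
theorem chain_family [Countable E] (o1 o2 : E) (ho : o1 ≠ o2) (X : ℕ → Set (ℕ → E))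
    (y0 : ℕ → E) (k0 : ℕ) :
    ∃ f : ℝ → (ℕ → E), Function.Injective f ∧ (∀ r, Cyl y0 k0 (f r)) ∧
      ({r | ∃ n, f r ∈ X n}.Countable ∨
        ∃ n y k, DenseIn (X n) y k ∧ ∃ x ∈ X n, ∃ x' ∈ X n, Cyl y k x ∧ Cyl y k x' ∧ x ≠ x' ∧
          ∀ i, x i = x' i ∨ (x i = o1 ∧ x' i = o2)) := by
  classical
  obtain ⟨κ, y, hκ, hκ0, hy, hbad⟩ := family o1 o2 X y0 k0
  obtain ⟨q, hq⟩ := exists_surjective_nat ℚ
  let a : ℝ → ℕ → Bool := fun r i => decide (∃ j, κ j = i ∧ ((q j : ℚ) : ℝ) < r)
  have ha : ∀ r j, a r (κ j) = decide (((q j : ℚ) : ℝ) < r) := by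
    intro r j
    show decide (∃ l, κ l = κ j ∧ ((q l : ℚ) : ℝ) < r) = _
    congr 1
    apply propext
    constructor
    · rintro ⟨l, hl, h⟩
      rwa [hκ.injective hl] at h
    · intro h
      exact ⟨j, rfl, h⟩
  let f : ℝ → (ℕ → E) := fun r => sub o1 o2 (Set.range κ) (a r) y
  have hf : ∀ r j, f r (κ j) = bif decide (((q j : ℚ) : ℝ) < r) then o1 else o2 := by
    intro r j
    show sub o1 o2 (Set.range κ) (a r) y _ = _
    have hm : κ j ∈ Set.range κ := ⟨j, rfl⟩
    rw [Mono.sub_mem o1 o2 hm, ha]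
  have hf' : ∀ r i, i ∉ Set.range κ → f r i = y i := fun r i hi => Mono.sub_not_mem o1 o2 hi
  have hlt : ∀ r r', r < r' → f r' ≠ f r ∧ ∀ i, f r' i = f r i ∨ (f r' i = o1 ∧ f r i = o2) := by
    intro r r' hrr
    obtain ⟨t, ht1, ht2⟩ := exists_rat_btwn hrr
    obtain ⟨j, rfl⟩ := hq t
    constructor
    · intro h
      have h1 := congrFun h (κ j)
      rw [hf, hf] at h1
      have h2 : decide (((q j : ℚ) : ℝ) < r') = true := decide_eq_true ht2
      have h3 : decide (((q j : ℚ) : ℝ) < r) = false := decide_eq_false (not_lt.2 ht1.le)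
      rw [h2, h3] at h1
      exact ho h1
    · intro i
      by_cases hi : i ∈ Set.range κ
      · obtain ⟨l, rfl⟩ := hi
        rw [hf, hf]
        by_cases h1 : ((q l : ℚ) : ℝ) < r
        · left
          have h2 : ((q l : ℚ) : ℝ) < r' := h1.trans hrr
          simp [h1, h2]
        · by_cases h2 : ((q l : ℚ) : ℝ) < r'
          · right
            simp [h1, h2]
          · left
            simp [h1, h2]
      · left
        rw [hf' _ _ hi, hf' _ _ hi]
  have hinj : Function.Injective f := by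
    intro r r' h
    rcases lt_trichotomy r r' with h1 | h1 | h1
    · exact absurd h.symm (hlt r r' h1).1
    · exact h1
    · exact absurd h (hlt r' r h1).1
  refine ⟨f, hinj, ?_, ?_⟩
  · intro r i hi
    have h1 : i ∉ Set.range κ := by
      rintro ⟨j, rfl⟩
      have := hκ0 j
      omega
    rw [hf' _ _ h1]
    exact hy i hi
  by_contra hcon
  push Not at hcon
  obtain ⟨hunc, hno⟩ := hcon
  apply hunc
  have hdense : ∀ r : {r | ∃ n, f r ∈ X n}, ∃ n k, f r ∈ X n ∧ DenseIn (X n) (f r) k := by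
    rintro ⟨r, n, hn⟩
    have := hbad (a r) n
    by_contra hc
    push Not at hc
    exact this ⟨hn, fun k => hc n k hn⟩
  choose n k hn hd using hdense
  let g : {r | ∃ n, f r ∈ X n} → ℕ × ℕ × List E :=
    fun r => (n r, k r, List.ofFn fun i : Fin (k r) => f r i)
  have hg : Function.Injective g := by
    have key : ∀ r r' : {r | ∃ n, f r ∈ X n}, g r = g r' → ¬ (r : ℝ) < r' := by
      intro r r' h hlt'
      simp only [g, Prod.mk.injEq] at h
      obtain ⟨e1, e2, e3⟩ := h
      have hcyl : Cyl (f r) (k r) (f r') := by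
        intro i hi
        have h1 : (List.ofFn fun i : Fin (k r) => f r i)[i]? =
            (List.ofFn fun i : Fin (k r') => f r' i)[i]? := by rw [e3]
        rw [List.getElem?_ofFn, List.getElem?_ofFn] at h1
        rw [dif_pos hi, dif_pos (by omega)] at h1
        simpa using h1.symm
      obtain ⟨i, hi1, hi2⟩ := hno (n r) (f r) (k r) (hd r) (f r') (by rw [e1]; exact hn r') (f r)
        (hn r) hcyl (Cyl.refl _ _) (hlt r r' hlt').1
      rcases (hlt r r' hlt').2 i with h1 | h1
      · exact hi1 h1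
      · exact hi2 h1.1 h1.2
    intro r r' h
    rcases lt_trichotomy (r : ℝ) r' with h1 | h1 | h1
    · exact absurd h1 (key r r' h)
    · exact Subtype.ext h1
    · exact absurd h1 (key r' r h.symm)
  have : Countable {r | ∃ n, f r ∈ X n} := hg.countable
  exact Set.countable_coe_iff.1 this

end Pool.Agent.Y546.SH
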