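import Pool.Agent.H454R3.EDeg
import Pool.Agent.Y546.SH.Fam

/-!
# The spaces, and the separation axioms S(n)
-/

set_option autoImplicit false

namespace Pool.Agent.Y546.SH

open Pool.Agent.H454R3.EDeg Pool.Agent.H454R3.Mono TopologicalSpace Topology

universe u

/-- The separation axiom `S(n)`, `n ≥ 1`: for all `x ≠ y` there are open sets `U 0, …, U (n - 1)`,
each containing the closure of the preceding one, such that `x` is in `U 0` and `y` is not in the
closure of `U (n - 1)`. -/
def IsS (n : ℕ) (X : Type*) [TopologicalSpace X] : Prop :=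
  ∀ x y : X, x ≠ y → ∃ U : ℕ → Set X, (∀ i, IsOpen (U i)) ∧ x ∈ U 0 ∧
    (∀ i, i + 1 < n → closure (U i) ⊆ U (i + 1)) ∧ y ∉ closure (U (n - 1))

/-! ### The points of a factor -/

/-- The points of a factor. The point `v s rs (some t)` has the value `2 * rs.length`, the point
`v s rs none` the value `2 * rs.length + 1`. -/
inductive Pt
  | o (b : Bool) : Pt
  | v (s : ℕ) (rs : List ℕ) (ot : Option ℕ) : Pt

open Pt

instance : Countable Pt := by
  have h : Function.Injective fun x : Pt => (match x with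
    | o b => Sum.inl b
    | v s rs ot => Sum.inr (s, rs, ot) : Bool ⊕ (ℕ × List ℕ × Option ℕ)) := by
    intro x y h
    cases x <;> cases y <;> simp_all
  exact h.countable

/-- The events revealed by a point. -/
def Ev : Pt → ℕ → Prop
  | o _, _ => False
  | v s rs ot, e => e = Nat.pair 0 s ∨ (∃ t, ot = some t ∧ e = Nat.pair 1 (Nat.pair rs.length t)) ∨
      ∃ j r, rs[j]? = some r ∧ e = Nat.pair (j + 2) r

/-- The value is at most `2 j`. -/
def Le : Pt → ℕ → Prop
  | o b, _ => b = false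
  | v _ rs ot, j => rs.length < j ∨ (rs.length = j ∧ ot ≠ none)

/-- The value is at least `2 j`. -/
def Ge : Pt → ℕ → Prop
  | o b, _ => b = true
  | v _ rs _, j => j ≤ rs.length

/-- The basic properties of a point. -/
def Tst (p : ℕ∞) : ℕ → Pt → ℕ → Prop
  | 0, x, e => Ev x e
  | 1, x, e => ¬ Ev x e
  | 2, x, e => Le x e
  | 3, x, e => (e : ℕ∞) ≤ p ∧ Ge x e
  | _, _, _ => False

/-- `w` is in the `m`-th neighbourhood of `x`. -/
def Near (p : ℕ∞) (m : ℕ) (x w : Pt) : Prop := ∀ t, ∀ e < m, Tst p t x e → Tst p t w e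

theorem Near.mk {p : ℕ∞} {m : ℕ} {x w : Pt} (h1 : ∀ e < m, Ev x e ↔ Ev w e)
    (h2 : ∀ e < m, Le x e → Le w e) (h3 : ∀ e < m, (e : ℕ∞) ≤ p → Ge x e → Ge w e) :
    Near p m x w := by
  intro t e he h
  rcases t with _ | _ | _ | _ | t
  · exact (h1 e he).1 h
  · exact fun h' => h ((h1 e he).2 h')
  · exact h2 e he h
  · exact ⟨h.1, h3 e he h.1 h.2⟩
  · exact h.elim

theorem near_refl (p : ℕ∞) (m : ℕ) (x : Pt) : Near p m x x := fun _ _ _ h => h

theorem near_bot0 (p : ℕ∞) {m s t : ℕ} (hs : m ≤ s) (ht : m ≤ t) :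
    Near p m (o false) (v s [] (some t)) := by
  refine Near.mk (fun e he => ⟨fun h => h.elim, fun h => ?_⟩)
    (fun e he _ => ?_) fun e he _ h => Bool.noConfusion h
  · rcases h with h | ⟨t', h, h'⟩ | ⟨j, r, h, h'⟩
    · have := Nat.right_le_pair 0 s
      omega
    · cases h
      have h1 := Nat.right_le_pair 1 (Nat.pair ([] : List ℕ).length t)
      have h2 := Nat.right_le_pair ([] : List ℕ).length t
      omega
    · simp at h
  · rcases Nat.eq_zero_or_pos e with rfl | h0
    · exact Or.inr ⟨rfl, by simp⟩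
    · exact Or.inl h0

theorem near_bot1 {p : ℕ∞} {m s t : ℕ} {rs : List ℕ} (hs : m ≤ s) (hrs : ∀ r ∈ rs, m ≤ r)
    (ht : m ≤ t) (hl : ∀ e < m, (e : ℕ∞) ≤ p → e ≤ rs.length) :
    Near p m (o true) (v s rs (some t)) := by
  refine Near.mk (fun e he => ⟨fun h => h.elim, fun h => ?_⟩)
    (fun e he h => Bool.noConfusion h) fun e he h _ => hl e he h
  rcases h with h | ⟨t', h, h'⟩ | ⟨j, r, h, h'⟩
  · have := Nat.right_le_pair 0 s
    omega
  · cases h
    have h1 := Nat.right_le_pair 1 (Nat.pair rs.length t)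
    have h2 := Nat.right_le_pair rs.length t
    omega
  · have h1 := hrs r (List.mem_of_getElem? h)
    have h2 := Nat.right_le_pair (j + 2) r
    omega

theorem near_even (p : ℕ∞) {m s t : ℕ} {rs : List ℕ} (ht : m ≤ t) :
    Near p m (v s rs none) (v s rs (some t)) := by
  refine Near.mk (fun e he => ⟨fun h => ?_, fun h => ?_⟩) (fun e he h => ?_) fun e he _ h => h
  · rcases h with h | ⟨t', h, h'⟩ | h
    · exact Or.inl h
    · simp at h
    · exact Or.inr (Or.inr h)
  · rcases h with h | ⟨t', h, h'⟩ | h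
    · exact Or.inl h
    · cases h
      have h1 := Nat.right_le_pair 1 (Nat.pair rs.length t)
      have h2 := Nat.right_le_pair rs.length t
      omega
    · exact Or.inr (Or.inr h)
  · rcases h with h | ⟨-, h⟩
    · exact Or.inl h
    · exact absurd rfl h

theorem near_next (p : ℕ∞) {m s r t : ℕ} {rs : List ℕ} (hr : m ≤ r) (ht : m ≤ t) :
    Near p m (v s rs none) (v s (rs ++ [r]) (some t)) := by
  have hlen : (rs ++ [r]).length = rs.length + 1 := by simp
  refine Near.mk (fun e he => ⟨fun h => ?_, fun h => ?_⟩) (fun e he h => ?_) fun e he _ h => ?_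
  · rcases h with h | ⟨t', h, h'⟩ | ⟨j, r', h, h'⟩
    · exact Or.inl h
    · simp at h
    · refine Or.inr (Or.inr ⟨j, r', ?_, h'⟩)
      rw [List.getElem?_append_left]
      · exact h
      · by_contra hc
        rw [List.getElem?_eq_none (by omega)] at h
        cases h
  · rcases h with h | ⟨t', h, h'⟩ | ⟨j, r', h, h'⟩
    · exact Or.inl h
    · cases h
      have h1 := Nat.right_le_pair 1 (Nat.pair (rs ++ [r]).length t)
      have h2 := Nat.right_le_pair (rs ++ [r]).length t
      omega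
    · rcases Nat.lt_or_ge j rs.length with hj | hj
      · rw [List.getElem?_append_left hj] at h
        exact Or.inr (Or.inr ⟨j, r', h, h'⟩)
      · rw [List.getElem?_append_right hj] at h
        have h3 : r' = r := by
          rcases hjj : j - rs.length with _ | a
          · rw [hjj] at h; simpa using h.symm
          · rw [hjj] at h; simp at h
        have h1 := Nat.right_le_pair (j + 2) r'
        omega
  · rcases h with h | ⟨-, h⟩
    · show (rs ++ [r]).length < e ∨ ((rs ++ [r]).length = e ∧ (some t : Option ℕ) ≠ none)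
      rw [hlen]
      rcases Nat.lt_or_ge (rs.length + 1) e with h' | h'
      · exact Or.inl h'
      · exact Or.inr ⟨by omega, by simp⟩
    · exact absurd rfl h
  · show e ≤ (rs ++ [r]).length
    have h' : e ≤ rs.length := h
    omega

/-! ### The space -/

/-- The code of a sequence of points. -/
def code (p : ℕ∞) (w : ℕ → Pt) : Set ℕ :=
  {q | Tst p q.unpair.1 (w q.unpair.2.unpair.1) q.unpair.2.unpair.2}

theorem mem_code {p : ℕ∞} {w : ℕ → Pt} {t i e : ℕ} :
    Nat.pair t (Nat.pair i e) ∈ code p w ↔ Tst p t (w i) e := by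
  simp only [code, Set.mem_ofPred_eq, Nat.unpair_pair]

theorem code_near {p : ℕ∞} {x w : ℕ → Pt} {q m : ℕ} (hq : q ∈ code p x) (hqm : q < m)
    (h : ∀ i < m, Near p m (x i) (w i)) : q ∈ code p w := by
  have h1 := Nat.unpair_right_le q
  have h2 := Nat.unpair_left_le q.unpair.2
  have h3 := Nat.unpair_right_le q.unpair.2
  exact h _ (by omega) _ _ (by omega) hq

/-- The space: a countable power. -/
def Sp (_ : ℕ∞) : Type := ℕ → Pt

/-- The base of the space. -/
def base (p : ℕ∞) (u : ℕ) : Set (Sp p) := {w | D u ⊆ code p w}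

instance (p : ℕ∞) : TopologicalSpace (Sp p) := generateFrom (Set.range (base p))

theorem D_or (u v : ℕ) : D (u ||| v) = D u ∪ D v := by
  ext i
  simp only [D, Set.mem_union, Set.mem_ofPred_eq, Nat.testBit_or, Bool.or_eq_true]

theorem D_pow (a : ℕ) : D (2 ^ a) = {a} := by
  ext i
  simp only [D, Set.mem_ofPred_eq, Nat.testBit_two_pow, decide_eq_true_eq, Set.mem_singleton_iff]
  exact eq_comm

theorem base_inter (p : ℕ∞) (u v : ℕ) : base p u ∩ base p v = base p (u ||| v) := by
  ext w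
  simp only [base, Set.mem_inter_iff, Set.mem_ofPred_eq, D_or, Set.union_subset_iff]

theorem isTopologicalBasis (p : ℕ∞) : IsTopologicalBasis (Set.range (base p)) where
  exists_subset_inter := by
    rintro _ ⟨u, rfl⟩ _ ⟨v, rfl⟩ w hw
    rw [base_inter] at hw
    exact ⟨_, ⟨u ||| v, rfl⟩, hw, by rw [← base_inter]⟩
  sUnion_eq := by
    rw [Set.eq_univ_iff_forall]
    intro w
    refine ⟨base p 0, ⟨0, rfl⟩, ?_⟩
    intro i hi
    simp [D] at hi
  eq_generateFrom := rfl

theorem isOpen_mem (p : ℕ∞) (q : ℕ) : IsOpen {w : Sp p | q ∈ code p w} := by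
  have h : {w : Sp p | q ∈ code p w} = base p (2 ^ q) := by
    ext w
    simp only [base, Set.mem_ofPred_eq, D_pow, Set.singleton_subset_iff]
  rw [h]
  exact (isTopologicalBasis p).isOpen ⟨_, rfl⟩

theorem isOpen_tst (p : ℕ∞) (t i e : ℕ) : IsOpen {w : Sp p | Tst p t (w i) e} := by
  have h := isOpen_mem p (Nat.pair t (Nat.pair i e))
  have h2 : {w : Sp p | Nat.pair t (Nat.pair i e) ∈ code p w} = _ :=
    Set.ext fun w => mem_code (w := w)
  rw [h2] at h
  exact h

/-- Thresholds. -/
theorem threshold {p : ℕ∞} {V : Set (Sp p)} (hV : IsOpen V) {w : Sp p} (hw : w ∈ V) :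
    ∃ m, ∀ w' : Sp p, (∀ i < m, Near p m (w i) (w' i)) → w' ∈ V := by
  obtain ⟨_, ⟨u, rfl⟩, h1, h2⟩ := (isTopologicalBasis p).exists_subset_of_mem_open hw hV
  refine ⟨u, fun w' hw' => h2 ?_⟩
  intro q hq
  exact code_near (h1 hq) (D_bound hq) hw'

theorem Near.mono {p : ℕ∞} {m m' : ℕ} {x w : Pt} (h : Near p m x w) (hm : m' ≤ m) :
    Near p m' x w := fun t e he => h t e (by omega)

/-- Thresholds in a subspace. -/
theorem threshold_sub {p : ℕ∞} {A : Set (Sp p)} {V : Set A} (hV : IsOpen V) {w : A}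
    (hw : w ∈ V) : ∃ m0, ∀ m, m0 ≤ m → ∀ w' : A,
      (∀ i < m, Near p m (w.1 i) (w'.1 i)) → w' ∈ V := by
  obtain ⟨W, hW, rfl⟩ := isOpen_induced_iff.1 hV
  obtain ⟨m, hm⟩ := threshold hW hw
  exact ⟨m, fun m' hm' w' hw' => hm w'.1 fun i hi => (hw' i (by omega)).mono hm'⟩

theorem closure_sub {p : ℕ∞} {A : Set (Sp p)} {V : Set A} {w : A}
    (h : ∀ m, ∃ m', m ≤ m' ∧ ∃ u ∈ V, ∀ i < m', Near p m' (w.1 i) (u.1 i)) : w ∈ closure V := by
  rw [mem_closure_iff]
  intro O hO hw
  obtain ⟨m0, hm0⟩ := threshold_sub hO hw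
  obtain ⟨m', hm', u, hu, hn⟩ := h m0
  exact ⟨u, hm0 m' hm' u hn, hu⟩

/-! ### The separation axioms -/

/-- Different points with the same events are the two special points. -/
theorem eq_of_ev {a b : Pt} (hab : a ≠ b) (h : ∀ e, Ev a e ↔ Ev b e) :
    (a = o false ∧ b = o true) ∨ (a = o true ∧ b = o false) := by
  have key : ∀ (b1 : Bool) (s : ℕ) (rs : List ℕ) (ot : Option ℕ),
      ¬ ∀ e, Ev (o b1) e ↔ Ev (v s rs ot) e := by
    intro b1 s rs ot h
    exact (h (Nat.pair 0 s)).2 (Or.inl rfl)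
  rcases a with b1 | ⟨s, rs, ot⟩ <;> rcases b with b2 | ⟨s', rs', ot'⟩
  · cases b1 <;> cases b2 <;> simp_all
  · exact absurd h (key _ _ _ _)
  · exact absurd (fun e => (h e).symm) (key _ _ _ _)
  · exfalso
    apply hab
    have h1 : s = s' := by
      rcases (h (Nat.pair 0 s)).1 (Or.inl rfl) with h2 | ⟨t, -, h2⟩ | ⟨j, r, -, h2⟩
      · exact (Nat.pair_eq_pair.1 h2).2
      · have := (Nat.pair_eq_pair.1 h2).1; omega
      · have := (Nat.pair_eq_pair.1 h2).1; omega
    have hsub : ∀ (s : ℕ) (rs : List ℕ) (ot : Option ℕ) (s' : ℕ) (rs' : List ℕ)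
        (ot' : Option ℕ), (∀ e, Ev (v s rs ot) e ↔ Ev (v s' rs' ot') e) →
        ∀ (j r : ℕ), rs[j]? = some r → rs'[j]? = some r := by
      intro s rs ot s' rs' ot' h j r hj
      rcases (h (Nat.pair (j + 2) r)).1 (Or.inr (Or.inr ⟨j, r, hj, rfl⟩)) with
        h2 | ⟨t, -, h2⟩ | ⟨j', r', h3, h2⟩
      · have := (Nat.pair_eq_pair.1 h2).1; omega
      · have := (Nat.pair_eq_pair.1 h2).1; omega
      · obtain ⟨h4, h5⟩ := Nat.pair_eq_pair.1 h2
        have h6 : j = j' := by omega
        rw [h6, h5]; exact h3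
    have hrs : rs = rs' := by
      apply List.ext_getElem?
      intro j
      rcases hj : rs[j]? with _ | r
      · rcases hj' : rs'[j]? with _ | r'
        · rfl
        · have := hsub _ _ _ _ _ _ (fun e => (h e).symm) j r' hj'
          rw [hj] at this; exact this
      · exact (hsub _ _ _ _ _ _ h j r hj).symm
    have hsub2 : ∀ (s : ℕ) (rs : List ℕ) (ot : Option ℕ) (s' : ℕ) (rs' : List ℕ)
        (ot' : Option ℕ), (∀ e, Ev (v s rs ot) e ↔ Ev (v s' rs' ot') e) →
        ∀ t, ot = some t → ot' = some t := by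
      intro s rs ot s' rs' ot' h t ht
      rcases (h (Nat.pair 1 (Nat.pair rs.length t))).1 (Or.inr (Or.inl ⟨t, ht, rfl⟩)) with
        h2 | ⟨t', h3, h2⟩ | ⟨j', r', -, h2⟩
      · have := (Nat.pair_eq_pair.1 h2).1; omega
      · have h4 := (Nat.pair_eq_pair.1 (Nat.pair_eq_pair.1 h2).2).2
        rw [h4]; exact h3
      · have := (Nat.pair_eq_pair.1 h2).1; omega
    have hot : ot = ot' := by
      rcases ho : ot with _ | t
      · rcases ho' : ot' with _ | t'
        · rfl
        · have := hsub2 _ _ _ _ _ _ (fun e => (h e).symm) t' ho'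
          rw [ho] at this; exact this
      · exact (hsub2 _ _ _ _ _ _ h t ho).symm
    rw [h1, hrs, hot]

theorem le_disj_ge {x : Pt} {j k : ℕ} (h1 : Le x j) (h2 : Ge x k) (hjk : j < k) : False := by
  cases x with
  | o b =>
    have h1' : b = false := h1
    have h2' : b = true := h2
    rw [h1'] at h2'
    exact Bool.noConfusion h2'
  | v s rs ot =>
    have h1' : rs.length < j ∨ (rs.length = j ∧ ot ≠ none) := h1
    have h2' : k ≤ rs.length := h2
    rcases h1' with h | ⟨h, -⟩ <;> omega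

theorem le_of_not_ge {x : Pt} {j : ℕ} (h : ¬ Ge x j) : Le x j := by
  cases x with
  | o b =>
    have h' : ¬ b = true := h
    show b = false
    simpa using h'
  | v s rs ot =>
    have h' : ¬ j ≤ rs.length := h
    exact Or.inl (by omega)

theorem ge_of_not_le {x : Pt} {j : ℕ} (h : ¬ Le x j) : Ge x j := by
  cases x with
  | o b =>
    have h' : ¬ b = false := h
    show b = true
    simpa using h'
  | v s rs ot =>
    have h' : ¬ (rs.length < j ∨ (rs.length = j ∧ ot ≠ none)) := h
    push Not at h'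
    exact h'.1

theorem isOpen_le (p : ℕ∞) (i j : ℕ) : IsOpen {w : Sp p | Le (w i) j} := isOpen_tst p 2 i j

theorem isOpen_ge {p : ℕ∞} (i : ℕ) {j : ℕ} (hj : (j : ℕ∞) ≤ p) :
    IsOpen {w : Sp p | Ge (w i) j} := by
  have h := isOpen_tst p 3 i j
  have h2 : {w : Sp p | Tst p 3 (w i) j} = {w : Sp p | Ge (w i) j} :=
    Set.ext fun w => ⟨fun h => h.2, fun h => ⟨hj, h⟩⟩
  rwa [h2] at h

theorem closure_disj {X : Type*} [TopologicalSpace X] {U V : Set X} (hV : IsOpen V)
    (h : ∀ w, w ∈ U → w ∈ V → False) {w : X} (hw : w ∈ closure U) : w ∉ V := by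
  intro hw'
  obtain ⟨z, hz1, hz2⟩ := mem_closure_iff.1 hw V hV hw'
  exact h z hz2 hz1

theorem isS_sp (p : ℕ∞) (n : ℕ) (hn : 1 ≤ n) (hnp : (n : ℕ∞) ≤ p) : IsS n (Sp p) := by
  intro w w' hne
  have hle : ∀ j : ℕ, j ≤ n → (j : ℕ∞) ≤ p := fun j hj => le_trans (by exact_mod_cast hj) hnp
  obtain ⟨i, hi⟩ := Function.ne_iff.1 (show (fun n => w n) ≠ fun n => w' n from hne)
  by_cases hev : ∀ e, Ev (w i) e ↔ Ev (w' i) e
  · rcases eq_of_ev hi hev with ⟨h1, h2⟩ | ⟨h1, h2⟩
    · refine ⟨fun j => {z | Le (z i) j}, fun j => isOpen_le p i j, ?_, ?_, ?_⟩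
      · show Le (w i) 0
        rw [h1]; rfl
      · intro j hj z hz
        have h3 := closure_disj (isOpen_ge i (hle (j + 1) (by omega)))
          (fun z h4 h5 => le_disj_ge h4 h5 (by omega)) hz
        exact le_of_not_ge h3
      · intro hz
        refine closure_disj (isOpen_ge i (hle n le_rfl))
          (fun z h4 h5 => le_disj_ge h4 h5 (by omega)) hz ?_
        show Ge (w' i) n
        rw [h2]; rfl
    · refine ⟨fun j => if j ≤ n then {z | Ge (z i) (n - j)} else Set.univ, fun j => ?_, ?_, ?_, ?_⟩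
      · dsimp only
        split_ifs
        · exact isOpen_ge i (hle (n - j) (by omega))
        · exact isOpen_univ
      · show w ∈ if 0 ≤ n then {z : Sp p | Ge (z i) (n - 0)} else Set.univ
        rw [if_pos (Nat.zero_le _)]
        show Ge (w i) (n - 0)
        rw [h1]; rfl
      · intro j hj z hz
        dsimp only at hz ⊢
        rw [if_pos (by omega)] at hz ⊢
        have h3 := closure_disj (isOpen_le p i (n - j - 1))
          (fun z h4 h5 => le_disj_ge h5 h4 (by omega)) hz
        have h4 := ge_of_not_le h3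
        show Ge (z i) (n - (j + 1))
        rwa [show n - (j + 1) = n - j - 1 by omega]
      · intro hz
        dsimp only at hz
        rw [if_pos (by omega)] at hz
        refine closure_disj (isOpen_le p i 0)
          (fun z h4 h5 => le_disj_ge h5 h4 (by omega)) hz ?_
        show Le (w' i) 0
        rw [h2]; rfl
  · push Not at hev
    obtain ⟨e, he⟩ := hev
    have h1 : IsOpen {z : Sp p | Ev (z i) e} := isOpen_tst p 0 i e
    have h2 : IsOpen {z : Sp p | ¬ Ev (z i) e} := isOpen_tst p 1 i e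
    have h3 : IsClosed {z : Sp p | Ev (z i) e} := ⟨h2⟩
    have h4 : IsClosed {z : Sp p | ¬ Ev (z i) e} :=
      ⟨by
        have : {z : Sp p | ¬ Ev (z i) e}ᶜ = {z : Sp p | Ev (z i) e} := by
          ext z
          simp
        rw [this]
        exact h1⟩
    rcases he with ⟨h5, h6⟩ | ⟨h5, h6⟩
    · refine ⟨fun _ => {z | Ev (z i) e}, fun _ => h1, h5, fun j _ => ?_, ?_⟩
      · rw [h3.closure_eq]
      · rw [h3.closure_eq]
        exact h6
    · refine ⟨fun _ => {z | ¬ Ev (z i) e}, fun _ => h2, h5, fun j _ => ?_, ?_⟩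
      · rw [h4.closure_eq]
      · rw [h4.closure_eq]
        exact fun h7 => h7 h6

end Pool.Agent.Y546.SH
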